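import Pool.Agent.H77.BD.Targets

set_option autoImplicit false

/-!
Row CEC of bct_modules (MP_9d0bb7_lc): the centralizer on the part `-1`.
-/

namespace Pool.Agent.H30.BCT

open Set Matrix Pool.Agent.H77.BC Pool.Agent.H77.BD

theorem pf_CEC (hBRB : T_BRB) (hEXT : T_EXT) (hPRN : T_PRN) (hCEA : T_CEA) : T_CEC := by
  intro l C hC hl F _ _ g α hLA hCm μ hμ γ δ hδ
  classical
  obtain ⟨hB1, hB2, hB3, hB4, -⟩ := hBRB hC (F := F)
  obtain ⟨hP1, hP2⟩ := hPRN hC (F := F)
  obtain ⟨-, hA2⟩ := hCEA hC g α hLA hCm
  have hαγ : ip C α.1 γ.1 = -1 := ip_of_sum hC α γ δ hδ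
  have hγα : ip C γ.1 α.1 = -1 := by rw [ip_comm hC, hαγ]
  have hδα : ip C δ.1 α.1 = 1 := by
    rw [hδ, ip_add_left, hγα, ip_self]
    norm_num
  have hδγ : ip C δ.1 γ.1 = 1 := by
    rw [hδ, ip_add_left, hαγ, ip_self]
    norm_num
  obtain ⟨w, hw⟩ : ∃ w, w = g (eb F γ) := ⟨_, rfl⟩
  have hw1 : ∀ e : Root C, ip C e.1 α.1 ≤ 0 → w.1 e = if e = γ then 1 else 0 := by
    intro e he
    rw [hw]
    exact hA2 e he (eb F γ)
  -- the relation with the Cartan algebra
  have hstar : ∀ h : Fin l → F, pr γ.1 h • w = ah h w - (μ * pr α.1 h) • nf α w := by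
    intro h
    have h1 : br (hb h) (eb F γ) = pr γ.1 h • eb F γ := by
      rw [hB2]
      refine Prod.ext ?_ ?_
      · funext e
        simp only [ah, eb, Prod.smul_fst, Pi.smul_apply, smul_eq_mul]
        split_ifs with he
        · rw [he]
        · rw [mul_zero, mul_zero]
      · funext i
        simp only [ah, eb, Prod.smul_snd, Pi.smul_apply, Pi.zero_apply, smul_zero]
    have h2 := hLA.2.2 (hb h) (eb F γ)
    rw [h1, hLA.2.1, hμ h, ← hw, sub_eq_add_neg, ← neg_smul, hB3, hB4, hB2, hB1, neg_smul,
      ← sub_eq_add_neg] at h2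
    exact h2
  have hα0 : w.1 (ng α) = 0 := by
    have h1 : ip C (ng α).1 α.1 ≤ 0 := by
      rw [ng_val, ip_neg_left, ip_self]
      norm_num
    rw [hw1 (ng α) h1, if_neg]
    intro h2
    rw [← h2, ng_val, ip_neg_right, ip_self] at hαγ
    norm_num at hαγ
  have hw2 : w.2 = 0 := by
    obtain ⟨h, hh⟩ := hP1 γ
    funext i
    have h1 := congrFun (congrArg Prod.snd (hstar h)) i
    simp only [Prod.smul_snd, Prod.snd_sub, Pi.smul_apply, Pi.sub_apply, smul_eq_mul, ah, nf,
      Pi.zero_apply] at h1
    rw [co_neg, hα0, hh] at h1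
    simpa using h1
  have hcomp : ∀ (h : Fin l → F) (e : Root C), pr γ.1 h * w.1 e =
      pr e.1 h * w.1 e - μ * pr α.1 h * ((eps C α.1 (e.1 - α.1) : F) * co w.1 (e.1 - α.1)) := by
    intro h e
    have h1 := congrFun (congrArg Prod.fst (hstar h)) e
    simp only [Prod.smul_fst, Prod.fst_sub, Pi.smul_apply, Pi.sub_apply, smul_eq_mul, ah, nf,
      hw2, pr_zero, neg_zero, ite_self, add_zero] at h1
    exact h1
  have hδ1 : w.1 δ = (eps C α.1 γ.1 : F) * μ := by
    obtain ⟨h, hh⟩ := hP1 α
    have h1 := hcomp h δ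
    have h2 : δ.1 - α.1 = γ.1 := by
      rw [hδ]
      abel
    rw [h2, co_val, hw1 γ (by rw [hγα]; norm_num), if_pos rfl, hh, hδ, pr_add_left, hh] at h1
    linear_combination -h1
  have hrest : ∀ e : Root C, 0 < ip C e.1 α.1 → e ≠ δ → w.1 e = 0 := by
    intro e he hne
    by_cases hneg : e.1 = -γ.1
    · -- use the root `δ`
      have hcom : ∀ (t : F) (v : Sp C F), g (Xf δ t v) = Xf δ t (g v) :=
        hCm δ (by rw [hδα]; norm_num)
      have h1 := (hEXT hC g δ hLA hcom (eb F γ)).1
      have h2 : nf δ (eb F γ) = 0 := by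
        refine Prod.ext ?_ ?_
        · funext ε
          have h3 : co (eb F γ).1 (ε.1 - δ.1) = 0 := by
            by_cases h4 : ip C (ε.1 - δ.1) (ε.1 - δ.1) = 2
            · rw [co_of (eb F γ).1 ⟨ε.1 - δ.1, h4⟩ rfl]
              show (if (⟨ε.1 - δ.1, h4⟩ : Root C) = γ then (1 : F) else 0) = 0
              rw [if_neg]
              intro h5
              have h6 : ε.1 = δ.1 + γ.1 := by
                rw [← h5]
                show ε.1 = δ.1 + (ε.1 - δ.1)
                abel
              have h7 := ip_of_sum hC δ γ ε h6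
              omega
            · exact co_not _ h4
          show (eps C δ.1 (ε.1 - δ.1) : F) * co (eb F γ).1 (ε.1 - δ.1) +
            (if ε = δ then - pr δ.1 (0 : Fin l → F) else 0) = 0
          rw [h3, pr_zero, neg_zero, ite_self, mul_zero, add_zero]
        · funext i
          show - (co (eb F γ).1 (-δ.1) * hh C F δ.1 i) = 0
          rw [co_neg]
          show - ((if ng δ = γ then (1 : F) else 0) * hh C F δ.1 i) = 0
          rw [if_neg, zero_mul, neg_zero]
          intro h5
          rw [← h5, ng_val, ip_neg_right, ip_self] at hδγ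
          norm_num at hδγ
      have h3 : g (0 : Sp C F) = 0 := by
        have h4 := hLA.2.1 0 (0 : Sp C F)
        rw [zero_smul, zero_smul] at h4
        exact h4
      rw [h2, h3, ← hw] at h1
      have h4 := congrFun (congrArg Prod.fst h1) α
      have h5 : α.1 - δ.1 = e.1 := by
        rw [hδ, hneg]
        abel
      have h6 : (0 : F) = (eps C δ.1 (α.1 - δ.1) : F) * co w.1 (α.1 - δ.1) +
        (if α = δ then - pr δ.1 w.2 else 0) := h4
      rw [hw2, pr_zero, neg_zero, ite_self, add_zero, h5, co_val] at h6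
      exact (mul_eq_zero.1 h6.symm).resolve_left (eps_ne_zero_F _ _)
    · have hγe : γ ≠ e := by
        intro h1
        rw [← h1, hγα] at he
        norm_num at he
      have hγe' : γ.1 ≠ -e.1 := by
        intro h1
        apply hneg
        rw [h1, neg_neg]
      obtain ⟨h, hh⟩ := hP2 γ e hγe hγe'
      have h1 := hcomp h e
      have h2 : co w.1 (e.1 - α.1) = 0 := by
        by_cases h3 : e = α
        · rw [h3, sub_self]
          apply co_not
          rw [ip_zero_left]
          norm_num
        · have h4 : ip C e.1 α.1 = 1 := by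
            have h5 := ip_le_one hC e α h3
            omega
          have h6 : co w.1 (e.1 - α.1) = w.1 (sb hC e α h4) := co_of _ _ rfl
          rw [h6, hw1, if_neg]
          · intro h7
            apply hne
            apply Subtype.ext
            rw [hδ, ← h7, sb_val]
            abel
          · rw [sb_val, ip_sub_left, h4, ip_self]
            norm_num
      rw [h2, mul_zero, mul_zero, sub_zero] at h1
      rw [pr_sub_left] at hh
      linear_combination h1 - w.1 e * hh
  rw [← hw]
  refine Prod.ext ?_ ?_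
  · funext e
    show w.1 e = (if e = γ then (1 : F) else 0) +
      ((eps C α.1 γ.1 : F) * μ) * (if e = δ then (1 : F) else 0)
    by_cases he : ip C e.1 α.1 ≤ 0
    · rw [hw1 e he]
      have h1 : e ≠ δ := by
        intro h2
        rw [h2, hδα] at he
        norm_num at he
      rw [if_neg h1, mul_zero, add_zero]
    · have h1 : e ≠ γ := by
        intro h2
        rw [h2, hγα] at he
        norm_num at he
      rw [if_neg h1, zero_add]
      by_cases h2 : e = δ
      · rw [if_pos h2, h2, hδ1, mul_one]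
      · rw [if_neg h2, mul_zero, hrest e (by omega) h2]
  · funext i
    show w.2 i = (0 : F) + ((eps C α.1 γ.1 : F) * μ) * 0
    rw [hw2, mul_zero, add_zero]
    rfl

end Pool.Agent.H30.BCT
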