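import Pool.Agent.H77.BD.Targets

set_option autoImplicit false

/-!
Row ISO of bct_modules (MP_9d0bb7_lc): isotropic subspaces.
-/

namespace Pool.Agent.H30.BCT

open Set Matrix Pool.Agent.H77.BC Pool.Agent.H77.BD

theorem pf_ISO : T_ISO := by
  intro F _ k A hA
  classical
  let B : LinearMap.BilinForm F ((Fin k → F) × (Fin k → F)) :=
    LinearMap.mk₂ F (fun u v => u.1 ⬝ᵥ v.2 - v.1 ⬝ᵥ u.2)
      (by
        intro u u' v
        simp only [Prod.fst_add, Prod.snd_add, add_dotProduct, dotProduct_add]
        ring)
      (by
        intro c u v
        simp only [Prod.smul_fst, Prod.smul_snd, smul_dotProduct, dotProduct_smul, smul_eq_mul]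
        ring)
      (by
        intro u v v'
        simp only [Prod.fst_add, Prod.snd_add, add_dotProduct, dotProduct_add]
        ring)
      (by
        intro c u v
        simp only [Prod.smul_fst, Prod.smul_snd, smul_dotProduct, dotProduct_smul, smul_eq_mul]
        ring)
  have hB : ∀ u v, B u v = u.1 ⬝ᵥ v.2 - v.1 ⬝ᵥ u.2 := fun u v => rfl
  have hanti : ∀ u v, B u v = - B v u := by
    intro u v
    rw [hB, hB]
    ring
  have hl : ∀ u, (∀ v, B u v = 0) → u = 0 := by
    intro u hu
    apply Prod.ext
    · funext i
      have := hu (0, Pi.single i 1)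
      rw [hB] at this
      simpa using this
    · funext i
      have := hu (Pi.single i 1, 0)
      rw [hB] at this
      simpa using this
  have hnd : B.Nondegenerate := ⟨hl, fun v hv => hl v (fun u => by rw [hanti, hv u, neg_zero])⟩
  refine ⟨Submodule.span F A, Submodule.subset_span, ?_⟩
  have hle : Submodule.span F A ≤ B.orthogonal (Submodule.span F A) := by
    rw [Submodule.span_le]
    intro u hu
    rw [SetLike.mem_coe, LinearMap.BilinForm.mem_orthogonal_iff]
    intro w hw
    show B w u = 0
    induction hw using Submodule.span_induction with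
    | mem x hx =>
      rw [hB]
      exact hA x hx u hu
    | zero => rw [map_zero, LinearMap.zero_apply]
    | add x y _ _ hx hy => rw [map_add, LinearMap.add_apply, hx, hy, add_zero]
    | smul c x _ hx => rw [map_smul, LinearMap.smul_apply, hx, smul_zero]
  have h1 := Submodule.finrank_mono hle
  rw [LinearMap.BilinForm.finrank_orthogonal hnd] at h1
  have h2 : Module.finrank F ((Fin k → F) × (Fin k → F)) = k + k := by
    simp
  have h3 := Submodule.finrank_le (Submodule.span F A)
  omega

end Pool.Agent.H30.BCT
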